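import Mathlib
import Pool.Agent.R105.GD.Large2

/-!
# The gcd recursion for prime triples: `N - f(N)` is often larger than a power of `N`

`b` is the 3-periodic sequence `2, 6, 0, ...`, `a N` the recursion `a_N` of the problem and
`f N = f(N)` its least zero. If `N - 4, N - 2, N + 2` have no prime factor `≤ z` and `N - 4` is
divisible by a prime `q` with `z < q ≤ 8 z`, then all the gcds are `1` until a jump by more than `z`
occurs, so `N - f(N) ≥ z`. A lower bound sieve of dimension three provides many such `N`.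
-/

set_option autoImplicit false

namespace Pool.Agent.Results.MP_3f8e47_nt.LargeDefects

open Finset Filter Topology

/-- The 3-periodic sequence `2, 6, 0, 2, 6, 0, …` (indexed from 1). -/
def b (n : ℕ) : ℕ := if n % 3 = 1 then 2 else if n % 3 = 2 then 6 else 0

/-- the recursion `a_N`: `a_N(1) = N - 6`, `a_N(n) = a_N(n-1) - gcd(a_N(n-1), n + b(n))` for
`n ≥ 2` (and `a_N(0) = 0`, not used) -/
noncomputable def a (N : ℕ) : ℕ → ℤ
  | 0 => 0
  | 1 => (N : ℤ) - 6
  | (n + 2) => a N (n + 1) - ((Int.gcd (a N (n + 1)) ((n + 2 + b (n + 2) : ℕ) : ℤ) : ℕ) : ℤ)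

/-- `f(N)`: the least `n ≥ 1` with `a_N(n) = 0` -/
noncomputable def f (N : ℕ) : ℕ := sInf {n : ℕ | 1 ≤ n ∧ a N n = 0}

lemma a_eq (N n : ℕ) : a N n = Pool.Agent.R105.GD.aa N n := by
  induction n using Nat.strong_induction_on with
  | _ n ih =>
    match n with
    | 0 => rw [a, Pool.Agent.R105.GD.aa]
    | 1 => rw [a, Pool.Agent.R105.GD.aa]
    | n + 2 =>
      rw [a, Pool.Agent.R105.GD.aa, ih (n + 1) (by omega)]
      rfl

lemma f_eq (N : ℕ) : f N = Pool.Agent.R105.GD.ff N := by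
  unfold f Pool.Agent.R105.GD.ff
  simp only [a_eq]

open Classical in
/-- For every `0 < ε ≤ 1` and every large `X`, at least `X^ε / (log X)^98` integers `N` in the
interval `[X, X + X^ε]` satisfy `N - f(N) ≥ X^(ε/3600)`. -/
theorem result : ∀ ε : ℝ, 0 < ε → ε ≤ 1 → ∀ᶠ X : ℕ in atTop,
    (X : ℝ) ^ ε / Real.log X ^ 98 ≤
      (((Icc X (X + ⌊(X : ℝ) ^ ε⌋₊)).filter
        (fun N : ℕ => (X : ℝ) ^ (ε / 3600) ≤ (N : ℝ) - f N)).card : ℝ) := by
  intro ε hε hε1
  obtain ⟨z0, hz0⟩ := Pool.Agent.R105.GD.primes_ge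
  have hlogt : Tendsto (fun X : ℕ => Real.log X) atTop atTop :=
    Real.tendsto_log_atTop.comp tendsto_natCast_atTop_atTop
  have hA := hlogt.eventually_ge_atTop (4 * 3600 / ε * (z0 + 3) + 921600 / ε + 100)
  filter_upwards [hA, eventually_ge_atTop 3] with X hL hX3
  set L := Real.log X with hLdef
  have hl2 := Real.log_two_gt_d9
  have hl2' := Real.log_two_lt_d9
  have hXpos : (0 : ℝ) < X := by exact_mod_cast (by omega : 0 < X)
  have hz00 : (0 : ℝ) ≤ z0 := Nat.cast_nonneg z0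
  have hL1 : 4 * 3600 / ε * (z0 + 3) ≤ L := by
    have : 0 < 921600 / ε := by positivity
    linarith
  have hL2 : 921600 / ε ≤ L := by
    have : 0 ≤ 4 * 3600 / ε * (z0 + 3) := by positivity
    linarith
  have hL100 : 100 ≤ L := by
    have : 0 ≤ 4 * 3600 / ε * (z0 + 3) := by positivity
    have : 0 < 921600 / ε := by positivity
    linarith
  -- the parameters
  set t : ℝ := ε * L / (1800 * Real.log 2) with ht
  have ht0 : 2 * (z0 + 3) ≤ t := by
    rw [ht, le_div_iff₀ (by positivity)]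
    have h1 : 4 * 3600 * (z0 + 3) ≤ L * ε := by
      have e : 4 * 3600 / ε * ((z0 : ℝ) + 3) = 4 * 3600 * (z0 + 3) / ε := by ring
      rw [e, div_le_iff₀ hε] at hL1
      exact hL1
    nlinarith
  have htL : t ≤ L := by
    rw [ht, div_le_iff₀ (by positivity)]
    nlinarith
  set I := Nat.log 2 ⌊t⌋₊ with hI
  have ht6 : 6 ≤ t := by linarith
  have hfl : ⌊t⌋₊ ≠ 0 := by
    have : 1 ≤ ⌊t⌋₊ := Nat.le_floor (by push_cast; linarith)
    omega
  have hI1 : (2 : ℝ) ^ I ≤ t := by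
    have h1 : 2 ^ I ≤ ⌊t⌋₊ := Nat.pow_log_le_self 2 hfl
    have h2 : (⌊t⌋₊ : ℝ) ≤ t := Nat.floor_le (by linarith)
    have h3 : (2 : ℝ) ^ I ≤ (⌊t⌋₊ : ℝ) := by exact_mod_cast h1
    linarith
  have hI2 : t < 2 * (2 : ℝ) ^ I := by
    have h1 : ⌊t⌋₊ < 2 ^ (I + 1) := Nat.lt_pow_succ_log_self (by norm_num) _
    have h2 : t < (⌊t⌋₊ : ℝ) + 1 := Nat.lt_floor_add_one t
    have h3 : (⌊t⌋₊ : ℝ) + 1 ≤ (2 : ℝ) ^ (I + 1) := by exact_mod_cast h1
    rw [pow_succ] at h3
    linarith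
  have hIz : (z0 : ℝ) + 3 ≤ (2 : ℝ) ^ I := by linarith
  have hI1' : 1 ≤ I := by
    by_contra hcon
    have : I = 0 := by omega
    rw [this] at hIz
    norm_num at hIz
    linarith
  set z : ℕ := 2 ^ 2 ^ I with hz
  have hz0z : z0 ≤ z := by
    have h1 : 2 ^ I ≤ z := by rw [hz]; exact Nat.lt_two_pow_self.le
    have h2 : (z0 : ℝ) ≤ (2 ^ I : ℕ) := by push_cast; linarith
    have h3 : z0 ≤ 2 ^ I := by exact_mod_cast h2
    omega
  have hzcast : (z : ℝ) = (2 : ℝ) ^ 2 ^ I := by rw [hz]; push_cast; rfl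
  have hlogz : Real.log z = 2 ^ I * Real.log 2 := by
    rw [hzcast, Real.log_pow]; push_cast; ring
  have hzpos : (0 : ℝ) < z := by rw [hzcast]; positivity
  have hz1 : (1 : ℝ) ≤ z := by rw [hzcast]; exact one_le_pow₀ (by norm_num)
  have hlogz1 : 1800 * Real.log z ≤ ε * L := by
    rw [hlogz]
    have e : t * (1800 * Real.log 2) = ε * L := by rw [ht]; field_simp
    rw [← e]
    have := mul_le_mul_of_nonneg_right hI1 (by positivity : 0 ≤ 1800 * Real.log 2)
    linarith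
  have hlogz2 : ε * L ≤ 3600 * Real.log z := by
    rw [hlogz]
    have e : t * (1800 * Real.log 2) = ε * L := by rw [ht]; field_simp
    rw [← e]
    have := mul_le_mul_of_nonneg_right hI2.le (by positivity : 0 ≤ 1800 * Real.log 2)
    linarith
  -- X^ε versus z
  have hXε : (X : ℝ) ^ ε = Real.exp (ε * L) := by
    rw [Real.rpow_def_of_pos hXpos, hLdef, mul_comm]
  have hz1800 : (z : ℝ) ^ 1800 ≤ (X : ℝ) ^ ε := by
    rw [hXε, ← Real.exp_log (show (0 : ℝ) < (z : ℝ) ^ 1800 by positivity), Real.log_pow]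
    apply Real.exp_le_exp.2
    push_cast
    exact hlogz1
  have hzX : (X : ℝ) ^ (ε / 3600) ≤ z := by
    rw [Real.rpow_def_of_pos hXpos, ← Real.exp_log hzpos]
    apply Real.exp_le_exp.2
    rw [← hLdef]
    linarith
  set y := ⌊(X : ℝ) ^ ε⌋₊ with hy
  have hy1 : z ^ 1800 ≤ y := Nat.le_floor (by push_cast; exact hz1800)
  have hy2 : (X : ℝ) ^ ε / 2 ≤ (y : ℝ) := by
    have h1 : (X : ℝ) ^ ε < (y : ℝ) + 1 := Nat.lt_floor_add_one _
    have h2 : (2 : ℝ) ≤ (X : ℝ) ^ ε := by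
      refine le_trans ?_ hz1800
      have h3 : (2 : ℝ) ≤ z := by
        rw [hzcast]
        calc (2 : ℝ) = 2 ^ 1 := by norm_num
          _ ≤ 2 ^ 2 ^ I := pow_le_pow_right₀ (by norm_num) Nat.one_le_two_pow
      calc (2 : ℝ) ≤ z := h3
        _ = (z : ℝ) ^ 1 := (pow_one _).symm
        _ ≤ (z : ℝ) ^ 1800 := pow_le_pow_right₀ hz1 (by norm_num)
    linarith
  have hyX : y ≤ X := by
    apply Nat.floor_le_of_le
    calc (X : ℝ) ^ ε ≤ (X : ℝ) ^ (1 : ℝ) :=
          Real.rpow_le_rpow_of_exponent_le (by exact_mod_cast (by omega : 1 ≤ X)) hε1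
      _ = X := Real.rpow_one _
  have hXz : 25 * z + 6 ≤ X := by
    have hz4 : 4 ≤ z := by
      rw [hz]
      calc 4 = 2 ^ 2 ^ 1 := by norm_num
        _ ≤ 2 ^ 2 ^ I := Nat.pow_le_pow_right (by norm_num) (Nat.pow_le_pow_right (by norm_num) hI1')
    have h1 : 25 * z + 6 ≤ z ^ 4 := by
      have h2 : 4 ^ 3 ≤ z ^ 3 := Nat.pow_le_pow_left hz4 3
      have h3 : z ^ 4 = z ^ 3 * z := by ring
      rw [h3]
      nlinarith
    have h2 : z ^ 4 ≤ z ^ 1800 := Nat.pow_le_pow_right (by omega) (by norm_num)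
    omega
  -- the count
  have hmain := Pool.Agent.R105.GD.count_ge I X y hI1' hXz
    (by rw [show 2 ^ (1800 * 2 ^ I) = z ^ 1800 by rw [hz, ← pow_mul, mul_comm]]; exact hy1)
    hyX (7200 / ε) (by
      rw [← hlogz, ← hLdef]
      have h1 : 7200 / ε * Real.log z = 2 * (3600 * Real.log z) / ε := by ring
      rw [h1, le_div_iff₀ hε]
      linarith)
  rw [← hz, ← hzcast] at hmain
  have hQ := hz0 z hz0z
  set Q : ℝ := (((Ioc z (8 * z)).filter Nat.Prime).card : ℝ) with hQdef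
  have hQ0 : 0 ≤ Q := Nat.cast_nonneg _
  have hlog8 : Real.log (8 * z) ≤ L := by
    rw [Real.log_mul (by norm_num) hzpos.ne']
    have h8 : Real.log 8 = 3 * Real.log 2 := by
      rw [show (8 : ℝ) = 2 ^ 3 by norm_num, Real.log_pow]; push_cast; ring
    rw [h8]
    have : ε * L ≤ L := by nlinarith
    linarith
  have hLpos : 0 < L := by linarith
  have hQL : (z : ℝ) / L ≤ Q := by
    rw [div_le_iff₀ hLpos]
    exact hQ.trans (mul_le_mul_of_nonneg_left hlog8 hQ0)
  have hpow : 1 / L ^ 96 ≤ 1 / ((2 : ℝ) ^ I) ^ 96 := by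
    apply one_div_le_one_div_of_le (by positivity)
    exact pow_le_pow_left₀ (by positivity) (hI1.trans htL) 96
  -- comparison of the target sets
  have hT : ((((Icc X (X + y)).filter (fun N => Pool.Agent.R105.GD.ff N + z ≤ N)).card : ℕ) : ℝ) ≤
      (((Icc X (X + y)).filter
        (fun N : ℕ => (X : ℝ) ^ (ε / 3600) ≤ (N : ℝ) - f N)).card : ℝ) := by
    rw [Nat.cast_le]
    apply card_le_card
    intro N hN
    rw [mem_filter] at hN ⊢
    refine ⟨hN.1, ?_⟩
    rw [f_eq]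
    have h1 : ((Pool.Agent.R105.GD.ff N + z : ℕ) : ℝ) ≤ (N : ℝ) := by exact_mod_cast hN.2
    push_cast at h1
    linarith
  refine le_trans ?_ hT
  set T : ℝ := ((((Icc X (X + y)).filter (fun N => Pool.Agent.R105.GD.ff N + z ≤ N)).card : ℕ) : ℝ)
    with hTdef
  have hfin : (z : ℝ) / L * ((X : ℝ) ^ ε / 2 / (64 * z) * (1 / L ^ 96)) ≤ T * (7200 / ε) := by
    refine le_trans ?_ hmain
    apply mul_le_mul hQL _ (by positivity) hQ0
    apply mul_le_mul _ hpow (by positivity) (by positivity)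
    exact div_le_div_of_nonneg_right hy2 (by positivity)
  have e1 : (z : ℝ) / L * ((X : ℝ) ^ ε / 2 / (64 * z) * (1 / L ^ 96)) =
      (X : ℝ) ^ ε / L ^ 98 * (L / 128) := by
    field_simp
    norm_num
  rw [e1] at hfin
  have h1 : 7200 / ε ≤ L / 128 := by
    have : 921600 / ε = 128 * (7200 / ε) := by ring
    linarith
  have h2 : 0 ≤ (X : ℝ) ^ ε / L ^ 98 := by positivity
  have h3 : 0 < 7200 / ε := by positivity
  have h4 : (X : ℝ) ^ ε / L ^ 98 * (7200 / ε) ≤ T * (7200 / ε) :=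
    (mul_le_mul_of_nonneg_left h1 h2).trans hfin
  exact le_of_mul_le_mul_right h4 h3

end Pool.Agent.Results.MP_3f8e47_nt.LargeDefects
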