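import Mathlib
import Pool.Agent.R701.GD.Core

/-!
# The gcd recursion for prime triples: the descent is slow

`N - a_N(n) ≤ N / (log N)^c'` for all `n ≤ √N (log N)^c` and large `N`, whenever `4 c + 2 c' < 1`.
Hence `f(N) > √N (log N)^c` for all large `N`, for every `c < 1/4`. The subtracted gcd at step `n` is
at most `n + 6`, which gives only `f(N) ≥ (√2 - o(1)) √N`.
-/

set_option autoImplicit false

namespace Pool.Agent.Results.MP_3f8e47_nt.SlowDescent

open Pool.Agent.R701.GD Filter Topology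

lemma small_log (δ : ℝ) (hδ : 0 < δ) : ∀ᶠ z : ℝ in atTop,
    13 * Real.log 2 + 6 * Real.log 3 + Real.log z ≤ 1 / (4 * 768 * 729) * z ^ δ := by
  have h1 := (isLittleO_log_rpow_atTop hδ).def
    (show (0 : ℝ) < 1 / (4 * 768 * 729) / 30 by norm_num)
  filter_upwards [h1, eventually_ge_atTop (3 : ℝ)] with x hx hx3
  have hx0 : 0 < x := by linarith
  have h3 := (le_abs_self _).trans hx
  rw [Real.norm_eq_abs, abs_of_nonneg (Real.rpow_nonneg hx0.le _)] at h3
  have h4 : 1 ≤ Real.log x := by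
    rw [Real.le_log_iff_exp_le hx0]
    exact (Real.exp_one_lt_d9.le.trans (by norm_num)).trans hx3
  have h5 : Real.log 2 ≤ 1 := by
    have := Real.log_two_lt_d9
    linarith
  have h6 : Real.log 3 ≤ 2 := by
    have := Real.log_le_sub_one_of_pos (show (0 : ℝ) < 3 by norm_num)
    linarith
  linarith

lemma tendsto_pow (c : ℝ) (hc : 0 < c) :
    Tendsto (fun N : ℕ => (Real.log N) ^ c) atTop atTop :=
  (tendsto_rpow_atTop hc).comp (Real.tendsto_log_atTop.comp tendsto_natCast_atTop_atTop)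

lemma large (c c' : ℝ) (hc : 0 ≤ c) (hc' : 0 < c') (hcc : 4 * c + 2 * c' < 1) :
    ∀ᶠ N : ℕ in atTop, 100 ≤ Nat.sqrt N ∧ 1 ≤ (Real.log N) ^ c ∧ 2 ≤ (Real.log N) ^ c' ∧
    6 * (Real.log N) ^ c' ≤ N ∧ 1 < Real.log N ∧
    (2 ^ 13 * ⌈2 * (Real.log N) ^ c⌉₊ ^ 4 * (⌈(Real.log N) ^ c'⌉₊ + 1) ^ 2) ^
      (768 * (⌈2 * (Real.log N) ^ c⌉₊ ^ 4 * (⌈(Real.log N) ^ c'⌉₊ + 1) ^ 2)) ≤ Nat.sqrt N := by
  have hlog : Tendsto (fun N : ℕ => Real.log N) atTop atTop :=
    Real.tendsto_log_atTop.comp tendsto_natCast_atTop_atTop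
  set θ := 4 * c + 2 * c' with hθ
  have hθ0 : 0 < θ := by rw [hθ]; linarith
  have hδ : 0 < 1 / θ - 1 := by
    have : 1 < 1 / θ := by
      rw [lt_div_iff₀ hθ0]; linarith
    linarith
  filter_upwards [(tendsto_pow θ hθ0).eventually (small_log _ hδ),
    (tendsto_pow c' hc').eventually_ge_atTop 2,
    eventually_ge_atTop (100 * 100), hlog.eventually_ge_atTop (4 * Real.log 2),
    hlog.eventually_ge_atTop 2] with N h1 h2 h3 h4 h5
  have hs : 100 ≤ Nat.sqrt N := Nat.le_sqrt.mpr h3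
  have hlogN : 0 < Real.log N := by linarith
  have hx1 : 1 ≤ (Real.log N) ^ c := Real.one_le_rpow (by linarith) hc
  refine ⟨hs, hx1, h2, ?_, by linarith, ?_⟩
  · -- 6 y ≤ N
    have hc'1 : c' ≤ 1 := by rw [hθ] at hcc; linarith
    have e1 : (Real.log N) ^ c' ≤ Real.log N := by
      calc (Real.log N) ^ c' ≤ (Real.log N) ^ (1 : ℝ) :=
            Real.rpow_le_rpow_of_exponent_le (by linarith) hc'1
        _ = Real.log N := Real.rpow_one _
    have hNpos : (0 : ℝ) < N := by exact_mod_cast (show 0 < N by omega)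
    have e2 : Real.log N = 2 * Real.log (Real.sqrt N) := by
      rw [Real.log_sqrt hNpos.le]; ring
    have e3 : Real.log (Real.sqrt N) ≤ Real.sqrt N - 1 :=
      Real.log_le_sub_one_of_pos (Real.sqrt_pos.mpr hNpos)
    have e4 : (100 : ℝ) ≤ Real.sqrt N := by
      apply Real.le_sqrt_of_sq_le
      have : ((100 * 100 : ℕ) : ℝ) ≤ N := by exact_mod_cast h3
      norm_num at this ⊢
      linarith
    have e5 : Real.sqrt N * Real.sqrt N = N := Real.mul_self_sqrt hNpos.le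
    nlinarith
  set x := (Real.log N) ^ c with hx
  set y := (Real.log N) ^ c' with hy
  set z := (Real.log N) ^ θ with hz
  set K := ⌈2 * x⌉₊ with hK
  set D := ⌈y⌉₊ + 1 with hD
  set s := Nat.sqrt N with hsd
  have hzxy : z = x ^ 4 * y ^ 2 := by
    rw [hz, hx, hy, ← Real.rpow_natCast, ← Real.rpow_natCast, ← Real.rpow_mul hlogN.le,
      ← Real.rpow_mul hlogN.le, ← Real.rpow_add hlogN]
    congr 1
    push_cast
    rw [hθ]
    ring
  have hz5 : z * z ^ (1 / θ - 1) = Real.log N := by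
    have hzpos : 0 < z := Real.rpow_pos_of_pos hlogN _
    calc z * z ^ (1 / θ - 1) = z ^ (1 : ℝ) * z ^ (1 / θ - 1) := by rw [Real.rpow_one]
      _ = z ^ (1 + (1 / θ - 1)) := by rw [← Real.rpow_add hzpos]
      _ = Real.log N := by
          rw [hz, ← Real.rpow_mul hlogN.le]
          have : θ * (1 + (1 / θ - 1)) = 1 := by
            field_simp
            ring
          rw [this, Real.rpow_one]
  have hKpos : 0 < K := Nat.ceil_pos.mpr (by linarith)
  have hDpos : 0 < D := Nat.succ_pos _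
  have hK1 : (1 : ℝ) ≤ K := by exact_mod_cast hKpos
  have hD1 : (1 : ℝ) ≤ D := by exact_mod_cast hDpos
  have hK3 : (K : ℝ) ≤ 3 * x := by
    have := Nat.ceil_lt_add_one (show 0 ≤ 2 * x by linarith)
    linarith
  have hD3 : (D : ℝ) ≤ 3 * y := by
    have := Nat.ceil_lt_add_one (show 0 ≤ y by linarith)
    rw [hD]
    push_cast
    linarith
  have hxpos : 0 < x := by linarith
  have hypos : 0 < y := by linarith
  have hzpos : 0 < z := by rw [hzxy]; positivity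
  have hspos : (0 : ℝ) < s := by exact_mod_cast (show 0 < s by omega)
  -- the logarithms
  have hlogs : Real.log N / 4 ≤ Real.log s := by
    have e1 : Real.sqrt N ≤ s + 1 := Real.real_sqrt_le_nat_sqrt_succ
    have e2 : (1 : ℝ) ≤ s := by exact_mod_cast (show 1 ≤ s by omega)
    have e3 : Real.sqrt N / 2 ≤ s := by linarith
    have hNpos : (0 : ℝ) < N := by exact_mod_cast (show 0 < N by omega)
    have e4 : Real.log (Real.sqrt N / 2) ≤ Real.log s :=
      Real.log_le_log (by positivity) e3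
    rw [Real.log_div (by positivity) (by norm_num), Real.log_sqrt hNpos.le] at e4
    linarith
  have hKD : (K : ℝ) ^ 4 * (D : ℝ) ^ 2 ≤ 729 * z := by
    calc (K : ℝ) ^ 4 * (D : ℝ) ^ 2 ≤ (3 * x) ^ 4 * (3 * y) ^ 2 := by gcongr
      _ = 729 * z := by rw [hzxy]; ring
  have hKD1 : 1 ≤ (K : ℝ) ^ 4 * (D : ℝ) ^ 2 := by
    have a1 : 1 ≤ (K : ℝ) ^ 4 := one_le_pow₀ hK1
    have a2 : 1 ≤ (D : ℝ) ^ 2 := one_le_pow₀ hD1
    nlinarith
  have hlogKD : Real.log ((K : ℝ) ^ 4 * (D : ℝ) ^ 2) ≤ 6 * Real.log 3 + Real.log z := by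
    have e1 : Real.log ((K : ℝ) ^ 4 * (D : ℝ) ^ 2) ≤ Real.log (3 ^ 6 * z) := by
      apply Real.log_le_log (by positivity)
      norm_num
      exact hKD
    rw [Real.log_mul (by norm_num) hzpos.ne', Real.log_pow] at e1
    push_cast at e1
    exact e1
  have key : Real.log (((2 ^ 13 * K ^ 4 * D ^ 2) ^ (768 * (K ^ 4 * D ^ 2)) : ℕ) : ℝ)
      ≤ Real.log s := by
    have e13 : Real.log 8192 = 13 * Real.log 2 := by
      rw [show (8192 : ℝ) = 2 ^ 13 by norm_num, Real.log_pow]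
      norm_num
    have e14 : (((2 ^ 13 * K ^ 4 * D ^ 2) ^ (768 * (K ^ 4 * D ^ 2)) : ℕ) : ℝ)
        = (8192 * ((K : ℝ) ^ 4 * (D : ℝ) ^ 2)) ^ (768 * (K ^ 4 * D ^ 2)) := by
      push_cast
      congr 1
      ring
    rw [e14, Real.log_pow, Real.log_mul (by norm_num) (by positivity), e13]
    push_cast
    have f1 : 13 * Real.log 2 + Real.log ((K : ℝ) ^ 4 * (D : ℝ) ^ 2)
        ≤ 1 / (4 * 768 * 729) * z ^ (1 / θ - 1) := by
      linarith
    have f0 : 0 ≤ 13 * Real.log 2 + Real.log ((K : ℝ) ^ 4 * (D : ℝ) ^ 2) := by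
      have := Real.log_nonneg hKD1
      have := Real.log_nonneg (show (1 : ℝ) ≤ 2 by norm_num)
      linarith
    calc 768 * ((K : ℝ) ^ 4 * (D : ℝ) ^ 2) *
          (13 * Real.log 2 + Real.log ((K : ℝ) ^ 4 * (D : ℝ) ^ 2))
        ≤ 768 * (729 * z) * (1 / (4 * 768 * 729) * z ^ (1 / θ - 1)) := by gcongr
      _ = (z * z ^ (1 / θ - 1)) / 4 := by ring
      _ ≤ Real.log s := by rw [hz5]; exact hlogs
  have hpos : (0 : ℝ) < (((2 ^ 13 * K ^ 4 * D ^ 2) ^ (768 * (K ^ 4 * D ^ 2)) : ℕ) : ℝ) := by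
    have : 0 < (2 ^ 13 * K ^ 4 * D ^ 2) ^ (768 * (K ^ 4 * D ^ 2)) := by positivity
    exact_mod_cast this
  have := (Real.log_le_log_iff hpos hspos).mp key
  exact_mod_cast this

lemma main (c c' : ℝ) (hc : 0 ≤ c) (hc' : 0 < c') (hcc : 4 * c + 2 * c' < 1) :
    ∃ N₀ : ℕ, ∀ N : ℕ, N₀ ≤ N → (7 ≤ N ∧ 1 < Real.log N) ∧ ∀ a : ℕ → ℤ, a 1 = (N : ℤ) - 6 →
      (∀ n : ℕ, 2 ≤ n → a n = a (n - 1) - ((Int.gcd (a (n - 1)) ((n + b n : ℕ) : ℤ) : ℕ) : ℤ)) →
      ∀ n : ℕ, 1 ≤ n → (n : ℝ) ≤ Real.sqrt N * (Real.log N) ^ c →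
        (N : ℝ) - a n ≤ N / (Real.log N) ^ c' := by
  obtain ⟨N₀, hN₀⟩ := eventually_atTop.mp (large c c' hc hc' hcc)
  refine ⟨max N₀ 7, ?_⟩
  intro N hN
  obtain ⟨hs, hx, hy2, h6y, hlog1, hbig⟩ := hN₀ N (le_trans (le_max_left _ _) hN)
  have hN7 : 7 ≤ N := le_trans (le_max_right _ _) hN
  refine ⟨⟨hN7, hlog1⟩, ?_⟩
  intro a ha1 ha n₀ hn₀1 hn₀
  by_contra hcon
  push Not at hcon
  set x := (Real.log N) ^ c with hxd
  set y := (Real.log N) ^ c' with hyd
  set s := Nat.sqrt N with hsd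
  set K := ⌈2 * x⌉₊ with hK
  set D := ⌈y⌉₊ + 1 with hD
  have hNR : (0 : ℝ) < N := by exact_mod_cast (show 0 < N by omega)
  have hypos : 0 < y := by linarith
  -- the first time below
  classical
  have hex : ∃ n : ℕ, 1 ≤ n ∧ (N : ℝ) / y < (N : ℝ) - a n := ⟨n₀, hn₀1, hcon⟩
  set f := Nat.find hex with hfd
  obtain ⟨hf1, hfy⟩ := Nat.find_spec hex
  rw [← hfd] at hf1 hfy
  have hfn₀ : f ≤ n₀ := Nat.find_min' hex ⟨hn₀1, hcon⟩
  have hbefore : ∀ k, 1 ≤ k → k < f → (N : ℝ) - a k ≤ N / y := by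
    intro k hk1 hk2
    have := Nat.find_min hex (m := k) (by rw [← hfd]; exact hk2)
    push Not at this
    exact this hk1
  have hNy : (N : ℝ) / y ≤ N / 2 := by gcongr
  have hhalf : ∀ k, 1 ≤ k → k < f → (N : ℤ) ≤ 2 * a k := by
    intro k hk1 hk2
    have h1 := (hbefore k hk1 hk2).trans hNy
    have h2 : (N : ℝ) ≤ 2 * a k := by linarith
    exact_mod_cast h2
  have hf2 : 2 ≤ f := by
    by_contra hlt
    have hf : f = 1 := by omega
    rw [hf, ha1] at hfy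
    push_cast at hfy
    have : (6 : ℝ) ≤ N / y := by
      rw [le_div_iff₀ hypos]
      exact h6y
    linarith
  have haf : 0 ≤ a f := by
    have h1 := ha f hf2
    have h2 := hhalf (f - 1) (by omega) (by omega)
    have hpos : 0 < a (f - 1) := by omega
    have := Int.le_of_dvd hpos (Int.gcd_dvd_left (a := a (f - 1)) (b := ((f + b f : ℕ) : ℤ)))
    linarith
  have hnn : ∀ k, 1 ≤ k → k ≤ f → 0 ≤ a k := by
    intro k hk1 hk2
    rcases hk2.eq_or_lt with h | h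
    · rw [h]; exact haf
    · have := hhalf k hk1 h
      omega
  have hKpos : 1 ≤ K := Nat.ceil_pos.mpr (by linarith)
  have hD2 : 2 ≤ D := by
    have : 0 < ⌈y⌉₊ := Nat.ceil_pos.mpr hypos
    omega
  have hyD : y ≤ D := by
    have := Nat.le_ceil y
    rw [hD]
    push_cast
    linarith
  have hsR : (100 : ℝ) ≤ s := by exact_mod_cast hs
  have hfK : f ≤ K * s := by
    have e1 : Real.sqrt N ≤ s + 1 := Real.real_sqrt_le_nat_sqrt_succ
    have e2 : 2 * x ≤ K := Nat.le_ceil _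
    have e0 : (f : ℝ) ≤ n₀ := by exact_mod_cast hfn₀
    have e3 : (f : ℝ) ≤ K * s := by
      have hx0 : 0 ≤ x := by linarith
      calc (f : ℝ) ≤ n₀ := e0
        _ ≤ Real.sqrt N * x := hn₀
        _ ≤ (s + 1) * x := by gcongr
        _ ≤ (2 * s) * x := by gcongr; linarith
        _ = (2 * x) * s := by ring
        _ ≤ K * s := by gcongr
    exact_mod_cast e3
  have hDs : D ≤ s := by
    refine le_trans ?_ hbig
    have hne : 768 * (K ^ 4 * D ^ 2) ≠ 0 := by positivity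
    refine le_trans ?_ (Nat.le_self_pow hne _)
    calc D = D * 1 := by ring
      _ ≤ D * (2 ^ 13 * K ^ 4 * D) := by
          apply Nat.mul_le_mul_left
          exact Nat.one_le_iff_ne_zero.mpr (by positivity)
      _ = _ := by ring
  have hDat : Dat K D s N f (fun n => (a (n - 1)).natAbs) := by
    refine ⟨hKpos, hD2, hs, hDs, hf2, hfK, Nat.sqrt_le N, ?_, ?_, ?_, ?_, ?_⟩
    · have h1 : N ≤ s * s + s + s := Nat.sqrt_le_add N
      nlinarith
    · show (a (2 - 1)).natAbs + 6 = N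
      rw [show 2 - 1 = 1 from rfl, ha1]
      omega
    · show D * (a (f + 1 - 1)).natAbs + N ≤ D * N
      rw [Nat.add_sub_cancel]
      have h1 : (N : ℝ) ≤ D * ((N : ℝ) - a f) := by
        have e1 : (N : ℝ) / y ≤ (N : ℝ) - a f := hfy.le
        have e2 : (N : ℝ) ≤ y * ((N : ℝ) - a f) := by
          rw [div_le_iff₀ hypos] at e1
          linarith
        have e3 : 0 ≤ (N : ℝ) - a f := le_trans (by positivity) e1
        exact e2.trans (by gcongr)
      have h2 : (((a f).natAbs : ℕ) : ℝ) = a f := by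
        rw [Nat.cast_natAbs, abs_of_nonneg haf]
      have h3 : (D : ℝ) * ((a f).natAbs : ℕ) + N ≤ D * N := by
        rw [h2]
        linarith
      exact_mod_cast h3
    · intro n hn2 hnf
      show (a (n + 1 - 1)).natAbs + Nat.gcd (a (n - 1)).natAbs (v n) = (a (n - 1)).natAbs
      rw [Nat.add_sub_cancel]
      have h1 := ha n hn2
      have h2 := hnn n (by omega) hnf
      have h3 := hnn (n - 1) (by omega) (by omega)
      have h4 : Int.gcd (a (n - 1)) ((n + b n : ℕ) : ℤ) = Nat.gcd (a (n - 1)).natAbs (v n) := rfl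
      rw [h4] at h1
      omega
    · intro n hn2 hnf
      show N ≤ 2 * (a (n - 1)).natAbs
      have := hhalf (n - 1) (by omega) (by omega)
      omega
  exact hDat.core hbig

/-- (1) If `c ≥ 0`, `c' > 0` and `4 c + 2 c' < 1`, then for all large `N` the recursion satisfies
`N - a_N(n) ≤ N / (log N)^c'` for all `n ≤ √N (log N)^c`.
(2) For every `c < 1/4`, `f(N) > √N (log N)^c` for all large `N`; in particular `f(N)/√N → ∞`. -/
theorem result :
    (∀ c c' : ℝ, 0 ≤ c → 0 < c' → 4 * c + 2 * c' < 1 →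
      ∃ N₀ : ℕ, ∀ N : ℕ, N₀ ≤ N → ∀ a : ℕ → ℤ, a 1 = (N : ℤ) - 6 →
        (∀ n : ℕ, 2 ≤ n → a n = a (n - 1) - ((Int.gcd (a (n - 1)) ((n + b n : ℕ) : ℤ) : ℕ) : ℤ)) →
        ∀ n : ℕ, 1 ≤ n → (n : ℝ) ≤ Real.sqrt N * (Real.log N) ^ c →
          (N : ℝ) - a n ≤ N / (Real.log N) ^ c') ∧
    (∀ c : ℝ, c < 1 / 4 → ∃ N₀ : ℕ, ∀ N : ℕ, N₀ ≤ N → ∀ a : ℕ → ℤ, a 1 = (N : ℤ) - 6 →
      (∀ n : ℕ, 2 ≤ n → a n = a (n - 1) - ((Int.gcd (a (n - 1)) ((n + b n : ℕ) : ℤ) : ℕ) : ℤ)) →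
      ∀ f : ℕ, IsLeast {n : ℕ | 1 ≤ n ∧ a n = 0} f →
        Real.sqrt N * (Real.log N) ^ c < f) := by
  refine ⟨?_, ?_⟩
  · intro c c' hc hc' hcc
    obtain ⟨N₀, hN₀⟩ := main c c' hc hc' hcc
    exact ⟨N₀, fun N hN => (hN₀ N hN).2⟩
  · intro c hc4
    have hm0 : 0 ≤ max c 0 := le_max_right _ _
    have hm4 : max c 0 < 1 / 4 := max_lt hc4 (by norm_num)
    have hc' : 0 < (1 - 4 * max c 0) / 4 := by linarith
    obtain ⟨N₀, hN₀⟩ := main (max c 0) ((1 - 4 * max c 0) / 4) hm0 hc' (by linarith)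
    refine ⟨N₀, ?_⟩
    intro N hN a ha1 ha f hf
    obtain ⟨⟨h7, hlog⟩, h2⟩ := hN₀ N hN
    obtain ⟨⟨hf1, haf⟩, -⟩ := hf
    by_contra hcon
    push Not at hcon
    have h3 : (f : ℝ) ≤ Real.sqrt N * (Real.log N) ^ (max c 0) := by
      refine hcon.trans ?_
      apply mul_le_mul_of_nonneg_left _ (Real.sqrt_nonneg _)
      exact Real.rpow_le_rpow_of_exponent_le hlog.le (le_max_left _ _)
    have h4 := h2 a ha1 ha f hf1 h3
    rw [haf] at h4
    have hNR : (0 : ℝ) < N := by exact_mod_cast (show 0 < N by omega)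
    have h5 : 1 < (Real.log N) ^ ((1 - 4 * max c 0) / 4) := Real.one_lt_rpow hlog hc'
    have h6 : (N : ℝ) / (Real.log N) ^ ((1 - 4 * max c 0) / 4) < N := div_lt_self hNR h5
    push_cast at h4
    linarith

end Pool.Agent.Results.MP_3f8e47_nt.SlowDescent
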