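import Mathlib
import Pool.Agent.R105.GD.Tri

/-!
# The gcd recursion for prime triples: the typical size of `N - f(N)`

`b` is the 3-periodic sequence `2, 6, 0, ...`, `a N` the recursion `a_N` of the problem and
`f N = f(N)` its least zero. By the starting result `LongLife`, `f(N) + 1, f(N) + 3, f(N) + 7` are
prime as soon as `N ≥ 2100` and `f(N) ≥ 4 N / 5`. So the `N ≤ X` with `N - f(N) ≤ H` lie within
distance `H` of the prime triples, and an upper bound sieve shows that there are at most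
`C H X / (log X)^3` of them.
-/

set_option autoImplicit false

namespace Pool.Agent.Results.MP_3f8e47_nt.TypicalDefect

open Finset Filter Topology

/-- The 3-periodic sequence `2, 6, 0, 2, 6, 0, …` (indexed from 1). -/
def b (n : ℕ) : ℕ := if n % 3 = 1 then 2 else if n % 3 = 2 then 6 else 0

/-- the recursion `a_N`: `a_N(1) = N - 6`, `a_N(n) = a_N(n-1) - gcd(a_N(n-1), n + b(n))` for
`n ≥ 2` (and `a_N(0) = 0`, not used) -/
noncomputable def a (N : ℕ) : ℕ → ℤ
  | 0 => 0
  | 1 => (N : ℤ) - 6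
  | (n + 2) => a N (n + 1) - ((Int.gcd (a N (n + 1)) ((n + 2 + b (n + 2) : ℕ) : ℤ) : ℕ) : ℤ)

/-- `f(N)`: the least `n ≥ 1` with `a_N(n) = 0` -/
noncomputable def f (N : ℕ) : ℕ := sInf {n : ℕ | 1 ≤ n ∧ a N n = 0}

lemma a_eq (N n : ℕ) : a N n = Pool.Agent.R105.GD.aa N n := by
  induction n using Nat.strong_induction_on with
  | _ n ih =>
    match n with
    | 0 => rw [a, Pool.Agent.R105.GD.aa]
    | 1 => rw [a, Pool.Agent.R105.GD.aa]
    | n + 2 =>
      rw [a, Pool.Agent.R105.GD.aa, ih (n + 1) (by omega)]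
      rfl

lemma f_eq (N : ℕ) : f N = Pool.Agent.R105.GD.ff N := by
  unfold f Pool.Agent.R105.GD.ff
  simp only [a_eq]

lemma small_bound : ∃ c : ℝ, 0 < c ∧ ∀ X : ℕ, 2 ≤ X → c ≤ X / Real.log X ^ 3 := by
  refine ⟨1 / 27, by norm_num, fun X hX => ?_⟩
  have hX' : (2 : ℝ) ≤ X := by exact_mod_cast hX
  have hl : 0 < Real.log X := Real.log_pos (by linarith)
  rw [div_le_div_iff₀ (by norm_num) (by positivity), one_mul]
  have h1 : Real.log X ≤ 3 * (X : ℝ) ^ (1 / 3 : ℝ) := by
    have h2 := Real.log_le_rpow_div (x := (X : ℝ)) (by linarith) (ε := 1 / 3) (by norm_num)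
    have e : (X : ℝ) ^ (1 / 3 : ℝ) / (1 / 3) = 3 * (X : ℝ) ^ (1 / 3 : ℝ) := by ring
    rw [e] at h2
    exact h2
  calc Real.log X ^ 3 ≤ (3 * (X : ℝ) ^ (1 / 3 : ℝ)) ^ 3 := pow_le_pow_left₀ hl.le h1 3
    _ = 27 * ((X : ℝ) ^ (1 / 3 : ℝ)) ^ 3 := by ring
    _ = 27 * (X : ℝ) := by
      rw [← Real.rpow_natCast, ← Real.rpow_mul (by linarith)]
      norm_num
    _ = (X : ℝ) * 27 := by ring

open Classical in
theorem count_le : ∃ C : ℝ, 0 < C ∧ ∀ X H : ℕ, 2 ≤ X → 1 ≤ H →
    (((Icc 6 X).filter (fun N : ℕ => N ≤ f N + H)).card : ℝ) ≤ C * H * (X / Real.log X ^ 3) := by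
  obtain ⟨C, hC, h⟩ := Pool.Agent.R105.GD.triples_le
  obtain ⟨X0, hX0⟩ := eventually_atTop.1 h
  obtain ⟨c, hc, hsm⟩ := small_bound
  refine ⟨(X0 + 2105) / c + 2 * C, by positivity, fun X H hX hH => ?_⟩
  have hlog : 0 < Real.log X := Real.log_pos (by exact_mod_cast hX)
  have hY : 0 < (X : ℝ) / Real.log X ^ 3 := by
    have : (0 : ℝ) < X := by exact_mod_cast (by omega : 0 < X)
    positivity
  have hcY := hsm X hX
  have hH' : (1 : ℝ) ≤ H := by exact_mod_cast hH
  by_cases hXX : X < X0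
  · have h1 : (((Icc 6 X).filter (fun N : ℕ => N ≤ f N + H)).card : ℝ) ≤ X0 := by
      have : ((Icc 6 X).filter (fun N : ℕ => N ≤ f N + H)).card ≤ X0 := by
        refine (card_filter_le _ _).trans ?_
        rw [Nat.card_Icc]
        omega
      exact_mod_cast this
    have h2 : (X0 : ℝ) ≤ X0 / c * (X / Real.log X ^ 3) := by
      calc (X0 : ℝ) = X0 / c * c := by field_simp
        _ ≤ X0 / c * (X / Real.log X ^ 3) := mul_le_mul_of_nonneg_left hcY (by positivity)
    have h3 : X0 / c * (X / Real.log X ^ 3) ≤ ((X0 + 2105) / c + 2 * C) * H * (X / Real.log X ^ 3) := by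
      apply mul_le_mul_of_nonneg_right _ hY.le
      have h4 : (X0 : ℝ) / c ≤ (X0 + 2105) / c := by
        apply div_le_div_of_nonneg_right _ hc.le
        linarith
      have h5 : (0 : ℝ) ≤ (X0 + 2105) / c := by positivity
      nlinarith
    linarith
  · push Not at hXX
    set T := (Icc 1 X).filter (fun n : ℕ => Nat.Prime (n + 1) ∧ Nat.Prime (n + 3) ∧ Nat.Prime (n + 7)) with hT
    have hTc := hX0 X hXX
    have hsub : (Icc 6 X).filter (fun N : ℕ => N ≤ f N + H) ⊆
        range (2100 + 5 * H) ∪ (T ×ˢ range (H + 1)).image (fun q => q.1 + q.2) := by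
      intro N hN
      rw [mem_filter, mem_Icc] at hN
      rw [mem_union, mem_range]
      by_cases hs : N < 2100 + 5 * H
      · exact Or.inl hs
      · right
        push Not at hs
        have hfle := Pool.Agent.R105.GD.ff_le N hN.1.1
        rw [← f_eq] at hfle
        have hp := Pool.Agent.R105.GD.ff_primes N (by omega) (by rw [← f_eq]; omega)
        rw [← f_eq] at hp
        rw [mem_image]
        refine ⟨(f N, N - f N), ?_, by simp only; omega⟩
        rw [mem_product, hT, mem_filter, mem_Icc, mem_range]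
        refine ⟨⟨⟨by omega, by omega⟩, hp⟩, by simp only; omega⟩
    have hcard : (((Icc 6 X).filter (fun N : ℕ => N ≤ f N + H)).card : ℝ) ≤
        (2100 + 5 * H) + T.card * (H + 1) := by
      have h1 := (card_le_card hsub).trans (card_union_le _ _)
      have h2 : ((T ×ˢ range (H + 1)).image (fun q => q.1 + q.2)).card ≤ T.card * (H + 1) := by
        refine card_image_le.trans ?_
        rw [card_product, card_range]
      rw [card_range] at h1
      have h3 : ((Icc 6 X).filter (fun N : ℕ => N ≤ f N + H)).card ≤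
        (2100 + 5 * H) + T.card * (H + 1) := by omega
      exact_mod_cast h3
    have h4 : (2100 + 5 * H : ℝ) ≤ 2105 / c * H * (X / Real.log X ^ 3) := by
      have h5 : (2100 + 5 * H : ℝ) ≤ 2105 * H := by linarith
      have h6 : (2105 * H : ℝ) = 2105 / c * H * c := by field_simp
      have h7 : 2105 / c * H * c ≤ 2105 / c * H * (X / Real.log X ^ 3) :=
        mul_le_mul_of_nonneg_left hcY (by positivity)
      linarith
    have h8 : (T.card : ℝ) * (H + 1) ≤ 2 * C * H * (X / Real.log X ^ 3) := by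
      have h9 : (T.card : ℝ) * (H + 1) ≤ (C * (X / Real.log X ^ 3)) * (2 * H) := by
        apply mul_le_mul hTc (by linarith) (by positivity) (by positivity)
      linarith
    have h10 : (0 : ℝ) ≤ X0 / c * H * (X / Real.log X ^ 3) := by positivity
    have h11 : ((X0 + 2105) / c + 2 * C) * H * (X / Real.log X ^ 3) =
        X0 / c * H * (X / Real.log X ^ 3) + 2105 / c * H * (X / Real.log X ^ 3)
          + 2 * C * H * (X / Real.log X ^ 3) := by ring
    rw [h11]
    linarith

open Classical in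
/-- (1) There is a constant `C` such that for all `X ≥ 2`, `H ≥ 1` at most `C H X / (log X)^3` of
the `N ≤ X` satisfy `N - f(N) ≤ H`. (2) Hence for every function `ψ` tending to infinity one has
`N - f(N) > (log N)^3 / ψ(N)` for almost all `N`. -/
theorem result :
    (∃ C : ℝ, 0 < C ∧ ∀ X H : ℕ, 2 ≤ X → 1 ≤ H →
      (((Icc 6 X).filter (fun N : ℕ => N ≤ f N + H)).card : ℝ) ≤ C * H * (X / Real.log X ^ 3)) ∧
    (∀ ψ : ℕ → ℝ, Tendsto ψ atTop atTop →
      Tendsto (fun X : ℕ => (((Icc 6 X).filter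
        (fun N : ℕ => (N : ℝ) - f N ≤ Real.log N ^ 3 / ψ N)).card : ℝ) / X) atTop (𝓝 0)) := by
  refine ⟨count_le, fun ψ hψ => ?_⟩
  obtain ⟨C, hC, hcount⟩ := count_le
  rw [Metric.tendsto_atTop]
  intro ε hε
  -- choose K
  obtain ⟨K, hK1, hK2⟩ : ∃ K : ℝ, 1 ≤ K ∧ C / K ≤ ε / 4 := by
    refine ⟨max 1 (4 * C / ε), le_max_left _ _, ?_⟩
    have h1 : 0 < max 1 (4 * C / ε) := lt_of_lt_of_le one_pos (le_max_left _ _)
    rw [div_le_iff₀ h1]
    have h2 : 4 * C / ε ≤ max 1 (4 * C / ε) := le_max_right _ _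
    have h3 : ε / 4 * (4 * C / ε) = C := by field_simp
    nlinarith [mul_le_mul_of_nonneg_left h2 (by positivity : 0 ≤ ε / 4)]
  obtain ⟨N1, hN1⟩ := eventually_atTop.1 (hψ.eventually_ge_atTop K)
  have hl3 : Tendsto (fun X : ℕ => Real.log X ^ 3) atTop atTop :=
    (tendsto_pow_atTop (by norm_num)).comp (Real.tendsto_log_atTop.comp tendsto_natCast_atTop_atTop)
  have hA := hl3.eventually_ge_atTop (4 * C * 1 / ε + 1)
  have hB := (tendsto_natCast_atTop_atTop (R := ℝ)).eventually_ge_atTop (4 * N1 / ε + 4)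
  obtain ⟨X1, hX1⟩ := eventually_atTop.1 (hA.and hB)
  refine ⟨max X1 2, fun X hX => ?_⟩
  obtain ⟨hL, hXb⟩ := hX1 X (le_trans (le_max_left _ _) hX)
  have hX2 : 2 ≤ X := le_trans (le_max_right _ _) hX
  have hXpos : (0 : ℝ) < X := by exact_mod_cast (by omega : 0 < X)
  have hlog : 0 < Real.log X := Real.log_pos (by exact_mod_cast hX2)
  have hL3 : 0 < Real.log X ^ 3 := by positivity
  rw [dist_zero_right, Real.norm_of_nonneg (by positivity)]
  set H : ℕ := ⌊Real.log X ^ 3 / K⌋₊ + 1 with hH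
  have hsub : (Icc 6 X).filter (fun N : ℕ => (N : ℝ) - f N ≤ Real.log N ^ 3 / ψ N) ⊆
      range N1 ∪ (Icc 6 X).filter (fun N : ℕ => N ≤ f N + H) := by
    intro N hN
    rw [mem_filter] at hN
    rw [mem_union, mem_range, mem_filter]
    by_cases hs : N < N1
    · exact Or.inl hs
    · right
      push Not at hs
      refine ⟨hN.1, ?_⟩
      have h6 := (mem_Icc.1 hN.1)
      have hNpos : (1 : ℝ) ≤ N := by exact_mod_cast (by omega : 1 ≤ N)
      have h1 : Real.log N ^ 3 / ψ N ≤ Real.log X ^ 3 / K := by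
        have h2 : 0 ≤ Real.log N := Real.log_nonneg hNpos
        have h3 : Real.log N ≤ Real.log X :=
          Real.log_le_log (by linarith) (by exact_mod_cast h6.2)
        exact div_le_div₀ (by positivity) (pow_le_pow_left₀ h2 h3 3) (by linarith) (hN1 N hs)
      have h4 := (hN.2.trans h1).trans (Nat.lt_floor_add_one _).le
      have h5 : ((N : ℕ) : ℝ) ≤ ((f N + H : ℕ) : ℝ) := by
        rw [hH]; push_cast; linarith
      exact_mod_cast h5
  have hc1 : (((Icc 6 X).filter (fun N : ℕ => (N : ℝ) - f N ≤ Real.log N ^ 3 / ψ N)).card : ℝ) ≤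
      N1 + C * H * (X / Real.log X ^ 3) := by
    have h1 := (card_le_card hsub).trans (card_union_le _ _)
    rw [card_range] at h1
    have h2 := hcount X H hX2 (by omega)
    have h3 : (((Icc 6 X).filter (fun N : ℕ => (N : ℝ) - f N ≤ Real.log N ^ 3 / ψ N)).card : ℝ) ≤
      N1 + (((Icc 6 X).filter (fun N : ℕ => N ≤ f N + H)).card : ℝ) := by exact_mod_cast h1
    linarith
  have hHle : (H : ℝ) ≤ Real.log X ^ 3 / K + 1 := by
    rw [hH]; push_cast
    linarith [Nat.floor_le (show 0 ≤ Real.log X ^ 3 / K by positivity)]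
  have hc2 : C * H * (X / Real.log X ^ 3) ≤ C / K * X + C * X / Real.log X ^ 3 := by
    have h1 : C * H * (X / Real.log X ^ 3) ≤ C * (Real.log X ^ 3 / K + 1) * (X / Real.log X ^ 3) := by
      apply mul_le_mul_of_nonneg_right _ (by positivity)
      exact mul_le_mul_of_nonneg_left hHle hC.le
    have h2 : C * (Real.log X ^ 3 / K + 1) * (X / Real.log X ^ 3) = C / K * X + C * X / Real.log X ^ 3 := by
      field_simp
    linarith
  have hc3 : C * X / Real.log X ^ 3 ≤ ε / 4 * X := by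
    rw [div_le_iff₀ hL3]
    have h1 : C ≤ ε / 4 * Real.log X ^ 3 := by
      have h2 : 4 * C * 1 / ε ≤ Real.log X ^ 3 := by linarith
      rw [div_le_iff₀ hε] at h2
      linarith
    nlinarith
  have hc4 : (N1 : ℝ) ≤ ε / 4 * X := by
    have h2 : 4 * N1 / ε ≤ (X : ℝ) := by linarith
    rw [div_le_iff₀ hε] at h2
    linarith
  rw [div_lt_iff₀ hXpos]
  have hc5 : C / K * X ≤ ε / 4 * X := mul_le_mul_of_nonneg_right hK2 hXpos.le
  have : 0 < ε * X := by positivity
  linarith

end Pool.Agent.Results.MP_3f8e47_nt.TypicalDefect
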